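import Pool.Agent.X260.QR.Torus

/-!
# Idempotents in the integral quandle ring of the Dehn quandle: the torus

Isotopy classes of essential simple closed curves on the torus are primitive vectors of `ℤ²` up to
sign; the Dehn twist about `w` is `v ↦ v + det(w, v) w`; the geometric intersection number is
`|det(v, w)|`.  Mathlib writes quandles with left translations: `w ◃ v` is `v * w = T_w(v)`.
-/

set_option autoImplicit false

namespace Pool.Agent.Results.MP_5b5d66_al.TorusCase

open Pool.Agent.X260.QR

/-- The idempotents of the integral quandle ring of the Dehn quandle of the torus are exactly `0`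
and the basis elements. -/
theorem result (u : Slope →₀ ℤ) : qmul u u = u ↔ (u = 0 ∨ ∃ x, u = Finsupp.single x 1) :=
  torus u

end Pool.Agent.Results.MP_5b5d66_al.TorusCase
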